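import Mathlib

set_option autoImplicit false

namespace Pool.Agent.Results.MP_d695ac_nt.MersenneClassification

open Finset

/-- `1 + p + ... + p^(m-1)` -/
def S (p : ℤ) (m : ℕ) : ℤ := ∑ i ∈ range m, p ^ i

lemma S_zero (p : ℤ) : S p 0 = 0 := by simp [S]

lemma S_succ (p : ℤ) (m : ℕ) : S p (m + 1) = p * S p m + 1 := by
  unfold S; exact geom_sum_succ

lemma S_mul (p : ℤ) (m : ℕ) : S p m * (p - 1) = p ^ m - 1 := by
  unfold S; exact geom_sum_mul p m

lemma S_nonneg (p : ℤ) (hp : 3 ≤ p) (m : ℕ) : 0 ≤ S p m := by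
  unfold S
  exact Finset.sum_nonneg fun i _ => by positivity

lemma S_odd (p : ℤ) (hp : Odd p) (m : ℕ) : (Odd m → Odd (S p m)) ∧ (Even m → Even (S p m)) := by
  induction m with
  | zero => simp [S_zero]
  | succ m ih =>
    rw [S_succ]
    constructor
    · intro h
      have h2 : Even m := by
        rcases Nat.even_or_odd m with h' | h'
        · exact h'
        · exact absurd h (by rw [Nat.not_odd_iff_even]; exact Odd.add_one h')
      exact Even.add_one ((ih.2 h2).mul_left p)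
    · intro h
      have h2 : Odd m := by
        rcases Nat.even_or_odd m with h' | h'
        · exact absurd h (by rw [Nat.not_even_iff_odd]; exact Even.add_one h')
        · exact h'
      exact Odd.add_one (hp.mul (ih.1 h2))

/-- lifting the exponent -/
lemma lte (p m l : ℕ) (hp : 3 ≤ p) (hodd : Odd p) (hm : Odd m)
    (h : (2 : ℤ) ^ l ∣ S p (m + 1)) : 2 ^ (l + 1) ≤ (p + 1) * (m + 1) := by
  have heven : Even (m + 1) := Odd.add_one hm
  have hp2 : ¬ 2 ∣ p := by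
    intro h2
    exact (Nat.not_even_iff_odd.2 hodd) (even_iff_two_dvd.2 h2)
  have hv := padicValNat.pow_two_sub_pow (x := p) (y := 1) (by omega)
    (by obtain ⟨c, hc⟩ := hodd; exact ⟨c, by omega⟩) hp2 (n := m + 1) (by omega) heven
  rw [one_pow] at hv
  have hd : 2 ^ l * (p - 1) ∣ p ^ (m + 1) - 1 := by
    have h1 : ((2 ^ l * (p - 1) : ℕ) : ℤ) ∣ ((p ^ (m + 1) - 1 : ℕ) : ℤ) := by
      have h2 : 1 ≤ p ^ (m + 1) := Nat.one_le_pow _ _ (by omega)
      push_cast [Nat.cast_sub h2, Nat.cast_sub (show 1 ≤ p by omega)]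
      rw [← S_mul (p : ℤ) (m + 1)]
      exact mul_dvd_mul_right h _
    exact_mod_cast h1
  have hne : p ^ (m + 1) - 1 ≠ 0 := by
    have h2 : p ^ 1 ≤ p ^ (m + 1) := Nat.pow_le_pow_right (by omega) (by omega)
    rw [pow_one] at h2
    omega
  have hfac : l + padicValNat 2 (p - 1) ≤ padicValNat 2 (p ^ (m + 1) - 1) := by
    obtain ⟨c, hc⟩ := hd
    have hc0 : c ≠ 0 := by rintro rfl; simp at hc; omega
    rw [hc, padicValNat.mul (Nat.mul_ne_zero (by positivity) (by omega)) hc0,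
      padicValNat.mul (by positivity) (by omega), padicValNat.prime_pow]
    omega
  have hl : l + 1 ≤ padicValNat 2 (p + 1) + padicValNat 2 (m + 1) := by omega
  calc 2 ^ (l + 1) ≤ 2 ^ (padicValNat 2 (p + 1) + padicValNat 2 (m + 1)) :=
        Nat.pow_le_pow_right (by norm_num) hl
    _ = 2 ^ (padicValNat 2 (p + 1)) * 2 ^ (padicValNat 2 (m + 1)) := pow_add _ _ _
    _ ≤ (p + 1) * (m + 1) := Nat.mul_le_mul
        (Nat.le_of_dvd (by omega) pow_padicValNat_dvd)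
        (Nat.le_of_dvd (by omega) pow_padicValNat_dvd)

lemma l_even (p m l : ℕ) (hodd : Odd p) (hm : Even m)
    (h : (2 : ℤ) ^ l ∣ S p (m + 1)) : l = 0 := by
  by_contra hl
  have h1 : (2 : ℤ) ∣ S p (m + 1) := (dvd_pow_self 2 hl).trans h
  have h2 := (S_odd (p : ℤ) (by exact_mod_cast hodd) (m + 1)).1 (Even.add_one hm)
  exact (Int.not_even_iff_odd.2 h2) (even_iff_two_dvd.2 h1)

lemma pow3 (j : ℕ) : 3 * (j + 6) ≤ 2 * 3 ^ (j + 2) := by
  induction j with
  | zero => norm_num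
  | succ j ih => rw [show j + 1 + 2 = (j + 2) + 1 by ring, pow_succ 3]; omega

/-- bound for the smaller power of two, `m ≥ 4` -/
lemma Lbound (p m l : ℕ) (hp : 3 ≤ p) (hodd : Odd p) (hm : 4 ≤ m)
    (h : (2 : ℤ) ^ l ∣ S p (m + 1)) : 3 * 2 ^ l ≤ (p + 1) * p ^ (m - 3) := by
  rcases Nat.even_or_odd m with he | ho
  · have hl := l_even p m l hodd he h
    subst hl
    have : 1 ≤ p ^ (m - 3) := Nat.one_le_pow _ _ (by omega)
    nlinarith
  · have h1 := lte p m l hp hodd ho h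
    have hm5 : 5 ≤ m := by
      obtain ⟨c, hc⟩ := ho; omega
    obtain ⟨j, rfl⟩ := Nat.exists_eq_add_of_le' hm5
    have h2 := pow3 j
    have h3 : 3 ^ (j + 2) ≤ p ^ (j + 2) := Nat.pow_le_pow_left hp _
    have h4 : j + 5 - 3 = j + 2 := by omega
    rw [h4]
    rw [pow_succ] at h1
    have h5 : 3 * (j + 6) ≤ 2 * p ^ (j + 2) := by omega
    have h6 : (p + 1) * (3 * (j + 6)) ≤ (p + 1) * (2 * p ^ (j + 2)) := Nat.mul_le_mul_left _ h5
    have h7 : j + 5 + 1 = j + 6 := by omega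
    rw [h7] at h1
    nlinarith

lemma S_pos (p : ℤ) (hp : 3 ≤ p) (m : ℕ) (hm : m ≠ 0) : 1 ≤ S p m := by
  obtain ⟨j, rfl⟩ := Nat.exists_eq_succ_of_ne_zero hm
  rw [Nat.succ_eq_add_one, S_succ]
  have := S_nonneg p hp j
  nlinarith

lemma dvd_small {p a : ℤ} (h : p ∣ a) (h1 : -p < a) (h2 : a < p) : a = 0 := by
  exact Int.eq_zero_of_abs_lt_dvd h (abs_lt.2 ⟨h1, h2⟩)

/-- the case `N < 2 p`, `m = n + 3` -/
lemma caseA (p N X Y : ℤ) (n b g : ℕ) (hp : 3 ≤ p) (hX : 1 ≤ X) (hY : 1 ≤ Y)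
    (h2X : 2 * X ≤ N) (h2Y : 2 * Y ≤ N) (hN : N < 2 * p) (hNp : p < N) (hbg : b ≤ g)
    (hne : ¬ (X = Y ∧ b = g))
    (E : N * S p (n + 3) = S p (n + 3 + 1) + X * p ^ b + Y * p ^ g) :
    n = 0 ∧ N = p + 1 := by
  have hs := S_nonneg p hp n
  have E1 : (N - p) * (1 + p + p ^ 2 + p ^ 3 * S p n) = 1 + X * p ^ b + Y * p ^ g := by
    rw [S_succ p (n + 3)] at E
    have h3 : S p (n + 3) = 1 + p + p ^ 2 + p ^ 3 * S p n := by
      rw [show n + 3 = (n + 2) + 1 by ring, S_succ, show n + 2 = (n + 1) + 1 by ring, S_succ,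
        S_succ]
      ring
    rw [h3] at E
    linarith
  obtain ⟨t, ht⟩ : ∃ t, t = N - p := ⟨_, rfl⟩
  rw [← ht] at E1
  have ht1 : 1 ≤ t := by omega
  have ht2 : t ≤ p - 1 := by omega
  have hXp : X < p := by omega
  have hYp : Y < p := by omega
  rcases b with _ | _ | b
  · -- b = 0
    exfalso
    rcases g with _ | g
    · simp only [pow_zero, mul_one] at E1
      nlinarith [mul_nonneg (pow_nonneg (by omega : (0:ℤ) ≤ p) 3) hs]
    · have hd : p ∣ t - 1 - X := by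
        refine ⟨Y * p ^ g - t * (1 + p + p ^ 2 * S p n), ?_⟩
        rw [pow_succ] at E1
        linear_combination E1
      have h0 := dvd_small hd (by omega) (by omega)
      have htX : t = 1 + X := by omega
      have E2 : p * (t * (1 + p + p ^ 2 * S p n)) = p * (Y * p ^ g) := by
        rw [pow_succ, htX] at E1
        rw [htX]
        linear_combination E1
      have E3 := mul_left_cancel₀ (by omega : p ≠ 0) E2
      rcases g with _ | g
      · rw [pow_zero, mul_one] at E3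
        nlinarith [mul_nonneg (pow_nonneg (by omega : (0:ℤ) ≤ p) 2) hs,
          mul_nonneg (by omega : (0:ℤ) ≤ t - 1)
            (by nlinarith [mul_nonneg (pow_nonneg (by omega : (0:ℤ) ≤ p) 2) hs] :
              (0:ℤ) ≤ 1 + p + p ^ 2 * S p n)]
      · have hd : p ∣ t := by
          refine ⟨Y * p ^ g - t * (1 + p * S p n), ?_⟩
          rw [pow_succ] at E3
          linear_combination E3
        have := dvd_small hd (by omega) (by omega)
        omega
  · -- b = 1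
    obtain ⟨g, rfl⟩ : ∃ g', g = g' + 1 := ⟨g - 1, by omega⟩
    simp only [zero_add, pow_one] at E1
    have hd : p ∣ t - 1 := by
      refine ⟨X + Y * p ^ g - t * (1 + p + p ^ 2 * S p n), ?_⟩
      rw [pow_succ] at E1
      linear_combination E1
    have h0 := dvd_small hd (by omega) (by omega)
    have ht0 : t = 1 := by omega
    have E2 : p * (1 + p + p ^ 2 * S p n) = p * (X + Y * p ^ g) := by
      rw [pow_succ, ht0] at E1
      linear_combination E1
    have E3 := mul_left_cancel₀ (by omega : p ≠ 0) E2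
    have hN1 : N = p + 1 := by omega
    rcases g with _ | g
    · exfalso
      rw [pow_zero, mul_one] at E3
      have h5 := mul_nonneg (pow_nonneg (by omega : (0:ℤ) ≤ p) 2) hs
      exact hne ⟨by omega, rfl⟩
    · have hd : p ∣ X - 1 := by
        refine ⟨1 + p * S p n - Y * p ^ g, ?_⟩
        rw [pow_succ] at E3
        linear_combination -E3
      have h0 := dvd_small hd (by omega) (by omega)
      have hX1 : X = 1 := by omega
      have E4 : p * (1 + p * S p n) = p * (Y * p ^ g) := by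
        rw [pow_succ, hX1] at E3
        linear_combination E3
      have E5 := mul_left_cancel₀ (by omega : p ≠ 0) E4
      rcases g with _ | g
      · rw [pow_zero, mul_one] at E5
        refine ⟨?_, hN1⟩
        by_contra hn
        have := S_pos p hp n hn
        nlinarith
      · exfalso
        have hd : p ∣ 1 := by
          refine ⟨Y * p ^ g - S p n, ?_⟩
          rw [pow_succ] at E5
          linear_combination E5
        have := Int.le_of_dvd (by norm_num) hd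
        omega
  · -- b ≥ 2
    exfalso
    obtain ⟨g, rfl⟩ : ∃ g', g = g' + 2 := ⟨g - 2, by omega⟩
    have hd : p ^ 2 ∣ t * (1 + p) - 1 := by
      refine ⟨X * p ^ b + Y * p ^ g - t * (1 + p * S p n), ?_⟩
      rw [show b + 1 + 1 = b + 2 by ring, pow_add, pow_add] at E1
      linear_combination E1
    have h0 := dvd_small hd (by nlinarith) (by nlinarith)
    nlinarith

/-- step B1 -/
lemma stepB1 (p N X Y : ℤ) (n b g : ℕ) (hp : 3 ≤ p) (hX : 1 ≤ X) (hY : 1 ≤ Y)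
    (h2X : 2 * X ≤ N) (h2Y : 2 * Y ≤ N) (hN : 2 * p ≤ N) (hbg : b ≤ g) (hg : g ≤ n + 1)
    (H : p ^ (n + 3) * (N - p) = N - 1 + (p - 1) * (X * p ^ b + Y * p ^ g)) : False := by
  have hp1 : (1 : ℤ) ≤ p := by omega
  have hb' : p ^ b ≤ p ^ (n + 1) := pow_le_pow_right₀ hp1 (by omega)
  have hg' : p ^ g ≤ p ^ (n + 1) := pow_le_pow_right₀ hp1 hg
  have hQ : 1 ≤ p ^ n := one_le_pow₀ hp1
  have e1 : X * p ^ b ≤ X * p ^ (n + 1) := mul_le_mul_of_nonneg_left hb' (by omega)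
  have e2 : Y * p ^ g ≤ Y * p ^ (n + 1) := mul_le_mul_of_nonneg_left hg' (by omega)
  have e3 : (X + Y) * p ^ (n + 1) ≤ N * p ^ (n + 1) :=
    mul_le_mul_of_nonneg_right (by omega) (by positivity)
  have e4 : (p - 1) * (X * p ^ b + Y * p ^ g) ≤ (p - 1) * (N * p ^ (n + 1)) :=
    mul_le_mul_of_nonneg_left (by linarith) (by omega)
  generalize hQd : p ^ n = Q at *
  have hn1 : p ^ (n + 1) = p * Q := by rw [pow_succ, hQd]; ring
  have hn3 : p ^ (n + 3) = p ^ 3 * Q := by rw [pow_add, hQd]; ring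
  rw [hn1] at e4
  rw [hn3] at H
  -- p^3 Q (N - p) ≤ N - 1 + (p-1) N p Q
  have e5 : p ^ 3 * Q * (N - p) ≤ N - 1 + (p - 1) * (N * (p * Q)) := by linarith
  have e6 : p ^ 3 * Q * (2 * (N - p)) ≥ p ^ 3 * Q * N :=
    mul_le_mul_of_nonneg_left (by omega) (by positivity)
  have e7 : N * Q * (p ^ 3 - 2 * p ^ 2 + 2 * p) ≤ 2 * N - 2 := by nlinarith
  have e8 : 2 ≤ p ^ 3 - 2 * p ^ 2 + 2 * p := by nlinarith
  have e9 : N * 1 * 2 ≤ N * Q * (p ^ 3 - 2 * p ^ 2 + 2 * p) :=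
    mul_le_mul (mul_le_mul_of_nonneg_left hQ (by omega)) e8 (by norm_num)
      (by have : 0 ≤ N := by omega
          positivity)
  linarith

/-- step B2 -/
lemma stepB2 (p N X Y : ℤ) (n b : ℕ) (hp : 3 ≤ p) (hX : 1 ≤ X) (hY : 1 ≤ Y)
    (h2X : 2 * X ≤ N) (h2Y : 2 * Y ≤ N) (hN : 2 * p ≤ N) (hb : b ≤ n + 1)
    (H : p ^ (n + 3) * (N - p) = N - 1 + (p - 1) * (X * p ^ b + Y * p ^ (n + 2))) : False := by
  have hp1 : (1 : ℤ) ≤ p := by omega
  have hb' : p ^ b ≤ p ^ (n + 1) := pow_le_pow_right₀ hp1 (by omega)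
  have hQ : 1 ≤ p ^ n := one_le_pow₀ hp1
  have e1 : X * p ^ b ≤ X * p ^ (n + 1) := mul_le_mul_of_nonneg_left hb' (by omega)
  have e3 : (2 * X) * p ^ (n + 1) ≤ N * p ^ (n + 1) :=
    mul_le_mul_of_nonneg_right (by omega) (by positivity)
  have e3' : (2 * Y) * p ^ (n + 2) ≤ N * p ^ (n + 2) :=
    mul_le_mul_of_nonneg_right (by omega) (by positivity)
  have e4 : (p - 1) * (2 * (X * p ^ b + Y * p ^ (n + 2))) ≤
      (p - 1) * (N * p ^ (n + 1) + N * p ^ (n + 2)) :=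
    mul_le_mul_of_nonneg_left (by linarith) (by omega)
  generalize hQd : p ^ n = Q at *
  have hn1 : p ^ (n + 1) = p * Q := by rw [pow_succ, hQd]; ring
  have hn2 : p ^ (n + 2) = p ^ 2 * Q := by rw [pow_add, hQd]; ring
  have hn3 : p ^ (n + 3) = p ^ 3 * Q := by rw [pow_add, hQd]; ring
  rw [hn1, hn2] at e4
  rw [hn3, hn2] at H
  have e5 : Q * (p * (p ^ 2 * N + N - 2 * p ^ 3)) ≤ 2 * N - 2 := by nlinarith
  have e6 : 0 ≤ p ^ 2 * N + N - 2 * p ^ 3 := by nlinarith [mul_nonneg (pow_nonneg (by omega : (0:ℤ) ≤ p) 2) (by omega : (0:ℤ) ≤ N - 2 * p)]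
  have e7 : 1 * (p * (p ^ 2 * N + N - 2 * p ^ 3)) ≤ Q * (p * (p ^ 2 * N + N - 2 * p ^ 3)) :=
    mul_le_mul_of_nonneg_right hQ (by positivity)
  have e8 : N * (p ^ 3 + p - 2) ≤ 2 * p ^ 4 - 2 := by nlinarith
  have e9 : 2 * p * (p ^ 3 + p - 2) ≤ N * (p ^ 3 + p - 2) :=
    mul_le_mul_of_nonneg_right hN (by nlinarith)
  nlinarith

/-- step B3 -/
lemma stepB3 (p N X Y : ℤ) (n : ℕ) (hp : 3 ≤ p) 
    (hXY : 4 * (X + Y) ≤ 3 * N) (hN : 2 * p ≤ N)
    (H : p ^ (n + 3) * (N - p) = N - 1 + (p - 1) * (X * p ^ (n + 2) + Y * p ^ (n + 2))) :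
    False := by
  have hp1 : (1 : ℤ) ≤ p := by omega
  have hQ : 1 ≤ p ^ n := one_le_pow₀ hp1
  generalize hQd : p ^ n = Q at *
  have hn2 : p ^ (n + 2) = p ^ 2 * Q := by rw [pow_add, hQd]; ring
  have hn3 : p ^ (n + 3) = p ^ 3 * Q := by rw [pow_add, hQd]; ring
  rw [hn3, hn2] at H
  obtain ⟨A, hA⟩ : ∃ A, A = p * (N - p) - (p - 1) * (X + Y) := ⟨_, rfl⟩
  have hA1 : p ^ 2 * Q * A = N - 1 := by rw [hA]; linear_combination H
  have hA0 : 0 < A := by
    by_contra hc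
    have : p ^ 2 * Q * A ≤ 0 := mul_nonpos_of_nonneg_of_nonpos (by positivity) (by omega)
    omega
  have e1 : 4 * A ≥ N * (p + 3) - 4 * p ^ 2 := by nlinarith
  have e2 : p ^ 2 * 1 * A ≤ p ^ 2 * Q * A :=
    mul_le_mul_of_nonneg_right (mul_le_mul_of_nonneg_left hQ (by positivity)) hA0.le
  have e3 : N * (p ^ 3 + 3 * p ^ 2 - 4) ≤ 4 * p ^ 4 - 4 := by nlinarith
  have e4 : 1 + p ^ 2 ≤ N := by nlinarith
  have e5 : (1 + p ^ 2) * (p ^ 3 + 3 * p ^ 2 - 4) ≤ N * (p ^ 3 + 3 * p ^ 2 - 4) :=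
    mul_le_mul_of_nonneg_right e4 (by nlinarith)
  have e6 : p ^ 2 * ((p - 1) * (p ^ 2 + 1)) ≤ 0 := by nlinarith
  have e7 : 0 < p ^ 2 * ((p - 1) * (p ^ 2 + 1)) := by
    have : 0 < p - 1 := by omega
    positivity
  linarith

/-- step D -/
lemma stepD (p N X Y B : ℤ) (n b : ℕ) (hp : 3 ≤ p) (hX : 1 ≤ X)
    (h2X : 2 * X ≤ N) (hb : b ≤ n) (hB : 1 ≤ B) (h2N : 2 * N ≤ (p + 1) * (p + B))
    (H : p ^ (n + 3) * B = N - 1 + (p - 1) * (X * p ^ b)) : False := by
  have hp1 : (1 : ℤ) ≤ p := by omega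
  have hb' : p ^ b ≤ p ^ n := pow_le_pow_right₀ hp1 (by omega)
  have hQ : 1 ≤ p ^ n := one_le_pow₀ hp1
  have e1 : X * p ^ b ≤ X * p ^ n := mul_le_mul_of_nonneg_left hb' (by omega)
  have e3 : (2 * X) * p ^ n ≤ N * p ^ n :=
    mul_le_mul_of_nonneg_right (by omega) (by positivity)
  have e4 : (p - 1) * (2 * (X * p ^ b)) ≤ (p - 1) * (N * p ^ n) :=
    mul_le_mul_of_nonneg_left (by linarith) (by omega)
  generalize hQd : p ^ n = Q at *
  have hn3 : p ^ (n + 3) = p ^ 3 * Q := by rw [pow_add, hQd]; ring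
  rw [hn3] at H
  have e5 : 2 * (p ^ 3 * Q * B) ≤ 2 * N - 2 + (p - 1) * (N * Q) := by nlinarith
  have e6 : N ≤ N * Q := by nlinarith
  have e7 : 2 * (p ^ 3 * Q * B) < (p + 1) * (N * Q) := by nlinarith
  have e8 : (p + 1) * (2 * N * Q) ≤ (p + 1) * ((p + 1) * (p + B) * Q) :=
    mul_le_mul_of_nonneg_left (mul_le_mul_of_nonneg_right h2N (by omega)) (by omega)
  have e9 : Q * (4 * p ^ 3 * B) < Q * ((p + 1) ^ 2 * (p + B)) := by nlinarith
  have e10 : 4 * p ^ 3 * B < (p + 1) ^ 2 * (p + B) := lt_of_mul_lt_mul_left e9 (by omega)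
  have e11 : (p + 1) ^ 3 ≤ 4 * p ^ 3 := by
    have : (0:ℤ) ≤ p ^ 2 * (p - 3) := mul_nonneg (by positivity) (by omega)
    nlinarith
  have e12 : (4 * p ^ 3 - (p + 1) ^ 2) * (B - 1) ≥ 0 :=
    mul_nonneg (by nlinarith) (by omega)
  nlinarith

/-- step E, `n ≥ 1` excluded -/
lemma stepE (p N X Y A B : ℤ) (n : ℕ) (hp : 3 ≤ p) (hX : 1 ≤ X)
    (h2X : 2 * X ≤ N) (hB : 1 ≤ B) (h2N : 2 * N ≤ (p + 1) * (p + B)) (hA : 1 ≤ A)
    (hN1 : N - 1 = p ^ (n + 1) * A) (hAB : A + (p - 1) * X = p ^ 2 * B) :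
    n = 0 ∧ B < p := by
  have hp1 : (1 : ℤ) ≤ p := by omega
  have hQ : 1 ≤ p ^ n := one_le_pow₀ hp1
  have hpA : p * A ≤ N - 1 := by
    rw [hN1, pow_succ]
    have : 1 * (p * A) ≤ p ^ n * (p * A) := mul_le_mul_of_nonneg_right hQ (by positivity)
    linarith
  have e0 : (p - 1) * (2 * X) ≤ (p - 1) * N := mul_le_mul_of_nonneg_left h2X (by omega)
  have e1 : 2 * (p ^ 3 * B) ≤ (p ^ 2 - p + 2) * N - 2 := by
    have : p * (2 * (p ^ 2 * B)) ≤ p * (2 * A + (p - 1) * N) :=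
      mul_le_mul_of_nonneg_left (by linarith) (by omega)
    nlinarith
  have e2 : (p ^ 2 - p + 2) * (2 * N) ≤ (p ^ 2 - p + 2) * ((p + 1) * (p + B)) :=
    mul_le_mul_of_nonneg_left h2N (by nlinarith)
  have e3 : B * (3 * p ^ 3 - p - 2) ≤ p ^ 4 + p ^ 2 + 2 * p - 4 := by nlinarith
  have hk : (0 : ℤ) < 3 * p ^ 3 - p - 2 := by nlinarith [mul_pos (by omega : (0:ℤ) < p) (by nlinarith : (0:ℤ) < p ^ 2)]
  constructor
  · by_contra hn
    have hp2 : p ^ 2 ≤ p ^ (n + 1) := pow_le_pow_right₀ hp1 (by omega)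
    have e4 : 1 + p ^ 2 ≤ N := by
      have : p ^ 2 * 1 ≤ p ^ (n + 1) * A := mul_le_mul hp2 hA (by norm_num) (by positivity)
      linarith
    have e5 : p ^ 2 - p + 2 ≤ (p + 1) * B := by nlinarith
    have e6 : (p ^ 2 - p + 2) * (3 * p ^ 3 - p - 2) ≤ (p + 1) * B * (3 * p ^ 3 - p - 2) :=
      mul_le_mul_of_nonneg_right e5 hk.le
    have e7 : (p + 1) * (B * (3 * p ^ 3 - p - 2)) ≤ (p + 1) * (p ^ 4 + p ^ 2 + 2 * p - 4) :=
      mul_le_mul_of_nonneg_left e3 (by omega)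
    have e8 : 2 * p ^ 5 - 4 * p ^ 4 + 4 * p ^ 3 - 4 * p ^ 2 + 2 * p ≤ 0 := by nlinarith
    have e9 : 0 < 2 * p ^ 5 - 4 * p ^ 4 + 4 * p ^ 3 - 4 * p ^ 2 + 2 * p := by
      have h1 : 0 ≤ p ^ 4 * (p - 3) := mul_nonneg (by positivity) (by omega)
      have h2 : 0 ≤ p ^ 2 * (p - 3) := mul_nonneg (by positivity) (by omega)
      have h3 : 0 < p ^ 4 := by positivity
      nlinarith
    linarith
  · by_contra hB'
    have : p * (3 * p ^ 3 - p - 2) ≤ B * (3 * p ^ 3 - p - 2) :=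
      mul_le_mul_of_nonneg_right (by omega) hk.le
    have h1 : 0 ≤ p ^ 3 * (p - 3) := mul_nonneg (by positivity) (by omega)
    have h2 : 0 < p ^ 3 := by positivity
    nlinarith

/-- case `β = m - 1`, the multiplier `X` is the smaller one, `m ≥ 4` -/
lemma stepF1a (p N X Y A B : ℤ) (n : ℕ) (hp : 3 ≤ p) (hX : 1 ≤ X) (hB : 1 ≤ B)
    (h2N : 2 * N ≤ (p + 1) * (p + B)) (hA : 1 ≤ A)
    (hN1 : N - 1 = p ^ (n + 2) * A) (hAB : A + (p - 1) * X = p * B) : B ≤ X := by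
  have hp1 : (1 : ℤ) ≤ p := by omega
  by_contra hc
  have e1 : B + p - 1 ≤ A := by nlinarith
  have hP : p ^ 2 ≤ p ^ (n + 2) := pow_le_pow_right₀ hp1 (by omega)
  have e2 : p ^ 2 * (B + p - 1) ≤ p ^ (n + 2) * A := mul_le_mul hP e1 (by omega) (by positivity)
  have e3 : 2 * (p ^ 2 * (B + p - 1)) < (p + 1) * (p + B) := by linarith
  have e4 : 0 ≤ (p - 3) * (p * (B + p - 1)) := mul_nonneg (by omega) (by nlinarith)
  nlinarith

lemma F1a_big (p N X Y A B : ℤ) (n : ℕ) (hp : 3 ≤ p) (hX : 1 ≤ X) (hB : 1 ≤ B)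
    (h2N : 2 * N ≤ (p + 1) * (p + B)) (hA : 1 ≤ A)
    (hN1 : N - 1 = p ^ (n + 3) * A) (hAB : A + (p - 1) * X = p * B)
    (hL : 3 * X ≤ (p + 1) * p ^ (n + 1)) : False := by
  have hp1 : (1 : ℤ) ≤ p := by omega
  have hBX := stepF1a p N X Y A B (n + 1) hp hX hB h2N hA hN1 hAB
  have hQ : p ≤ p ^ (n + 1) := by
    calc p = p ^ 1 := (pow_one p).symm
      _ ≤ p ^ (n + 1) := pow_le_pow_right₀ hp1 (by omega)
  have e1 : p ^ (n + 3) * 1 ≤ p ^ (n + 3) * A := mul_le_mul_of_nonneg_left hA (by positivity)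
  have hn3 : p ^ (n + 3) = p ^ 2 * p ^ (n + 1) := by ring
  rw [hn3] at e1 hN1
  generalize p ^ (n + 1) = Q at *
  have e2 : (p + 1) * (p + B) ≤ (p + 1) * (p + X) := mul_le_mul_of_nonneg_left (by omega) (by omega)
  have e3 : (p + 1) * (3 * X) ≤ (p + 1) * ((p + 1) * Q) := mul_le_mul_of_nonneg_left hL (by omega)
  have e4 : Q * (5 * p ^ 2 - 2 * p - 1) ≤ 3 * p ^ 2 + 3 * p - 6 := by nlinarith
  have e5 : p * (5 * p ^ 2 - 2 * p - 1) ≤ Q * (5 * p ^ 2 - 2 * p - 1) :=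
    mul_le_mul_of_nonneg_right hQ (by nlinarith)
  nlinarith

lemma F1a_small (p N X Y A B : ℤ) (hp : 3 ≤ p) (hX : 1 ≤ X) (hB : 1 ≤ B)
    (h2N : 2 * N ≤ (p + 1) * (p + B)) (hA : 3 ≤ A)
    (hN1 : N - 1 = p ^ 2 * A) (hAB : A + (p - 1) * X = p * B)
    (hL : X ≤ 2 * (p + 1)) : False := by
  have hBX := stepF1a p N X Y A B 0 hp hX hB h2N (by omega) (by simpa using hN1) hAB
  have e2 : (p + 1) * (p + B) ≤ (p + 1) * (p + 2 * (p + 1)) :=
    mul_le_mul_of_nonneg_left (by omega) (by omega)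
  nlinarith

/-- case `β = m - 1`, the multiplier `Y` is the smaller one -/
lemma stepF1b (p N X Y A B : ℤ) (n : ℕ) (hp : 3 ≤ p) (h2X : 2 * X ≤ N)
    (hA : 1 ≤ A) (hN1 : N - 1 = p ^ (n + 2) * A) (hAB : A + (p - 1) * X = p * B)
    (hN : N = p + B + (p - 1) * Y) : N ≤ 2 * p + 2 * (p - 1) * Y := by
  have hp1 : (1 : ℤ) ≤ p := by omega
  have hP : p ^ 2 ≤ p ^ (n + 2) := pow_le_pow_right₀ hp1 (by omega)
  have e1 : 9 * A ≤ N - 1 := by
    have h1 : p ^ 2 * A ≤ p ^ (n + 2) * A := mul_le_mul_of_nonneg_right hP (by omega)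
    have h9 : 9 ≤ p ^ 2 := by nlinarith
    have h2 : 9 * A ≤ p ^ 2 * A := mul_le_mul_of_nonneg_right h9 (by omega)
    linarith
  have e2 : (p + 1) * N ≤ 2 * p ^ 2 + 2 * A + 2 * p * (p - 1) * Y := by
    have : (p - 1) * (2 * X) ≤ (p - 1) * N := mul_le_mul_of_nonneg_left h2X (by omega)
    nlinarith
  have e3 : p * N ≤ p * (2 * p + 2 * (p - 1) * Y) := by nlinarith
  exact le_of_mul_le_mul_left e3 (by omega)

lemma F1b_big (p N X Y A B : ℤ) (n : ℕ) (hp : 3 ≤ p) (h2X : 2 * X ≤ N)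
    (hA : 1 ≤ A) (hN1 : N - 1 = p ^ (n + 3) * A) (hAB : A + (p - 1) * X = p * B)
    (hN : N = p + B + (p - 1) * Y) (hL : 3 * Y ≤ (p + 1) * p ^ (n + 1)) : False := by
  have hp1 : (1 : ℤ) ≤ p := by omega
  have h := stepF1b p N X Y A B (n + 1) hp h2X hA hN1 hAB hN
  have hQ : p ≤ p ^ (n + 1) := by
    calc p = p ^ 1 := (pow_one p).symm
      _ ≤ p ^ (n + 1) := pow_le_pow_right₀ hp1 (by omega)
  have e1 : p ^ (n + 3) * 1 ≤ p ^ (n + 3) * A := mul_le_mul_of_nonneg_left hA (by positivity)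
  have hn3 : p ^ (n + 3) = p ^ 2 * p ^ (n + 1) := by ring
  rw [hn3] at e1 hN1
  generalize p ^ (n + 1) = Q at *
  have e3 : (p - 1) * (3 * Y) ≤ (p - 1) * ((p + 1) * Q) := mul_le_mul_of_nonneg_left hL (by omega)
  have e4 : Q * (p ^ 2 + 2) ≤ 6 * p - 3 := by nlinarith
  have e5 : p * (p ^ 2 + 2) ≤ Q * (p ^ 2 + 2) := mul_le_mul_of_nonneg_right hQ (by positivity)
  nlinarith

lemma F1b_small (p N X Y A B : ℤ) (hp : 3 ≤ p) (h2X : 2 * X ≤ N)
    (hA : 7 ≤ A) (hN1 : N - 1 = p ^ 2 * A) (hAB : A + (p - 1) * X = p * B)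
    (hN : N = p + B + (p - 1) * Y) (hL : Y ≤ 2 * (p + 1)) : False := by
  have h := stepF1b p N X Y A B 0 hp h2X (by omega) (by simpa using hN1) hAB hN
  have e3 : (p - 1) * Y ≤ (p - 1) * (2 * (p + 1)) := mul_le_mul_of_nonneg_left hL (by omega)
  nlinarith

/-- case `β = m`: `L` the smaller, `M` the larger multiplier -/
lemma stepF2 (p N L M A : ℤ) (n : ℕ) (hp : 3 ≤ p) (hM : (p + 1) * M ≤ N)
    (hA : 1 ≤ A) (hN1 : N - 1 = p ^ (n + 3) * A)
    (hN : N = p + A + (p - 1) * (L + M)) : N ≤ (p + 1) * p + (p ^ 2 - 1) * L := by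
  have hp1 : (1 : ℤ) ≤ p := by omega
  have hP : p ^ 3 ≤ p ^ (n + 3) := pow_le_pow_right₀ hp1 (by omega)
  have e1 : (p + 1) * A ≤ N := by
    have h1 : p ^ 3 * A ≤ p ^ (n + 3) * A := mul_le_mul_of_nonneg_right hP (by omega)
    have h9 : 9 ≤ p ^ 2 := by nlinarith
    have h3 : p + 1 ≤ p ^ 3 := by nlinarith
    have h2 : (p + 1) * A ≤ p ^ 3 * A := mul_le_mul_of_nonneg_right h3 (by omega)
    linarith
  have e2 : (p - 1) * ((p + 1) * M) ≤ (p - 1) * N := mul_le_mul_of_nonneg_left hM (by omega)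
  nlinarith

lemma F2_big (p N L M A : ℤ) (n : ℕ) (hp : 3 ≤ p) (hM : (p + 1) * M ≤ N)
    (hA : 1 ≤ A) (hN1 : N - 1 = p ^ (n + 4) * A)
    (hN : N = p + A + (p - 1) * (L + M)) (hL : 3 * L ≤ (p + 1) * p ^ (n + 1)) : False := by
  have hp1 : (1 : ℤ) ≤ p := by omega
  have h := stepF2 p N L M A (n + 1) hp hM hA hN1 hN
  have hQ : p ≤ p ^ (n + 1) := by
    calc p = p ^ 1 := (pow_one p).symm
      _ ≤ p ^ (n + 1) := pow_le_pow_right₀ hp1 (by omega)
  have e1 : p ^ (n + 4) * 1 ≤ p ^ (n + 4) * A := mul_le_mul_of_nonneg_left hA (by positivity)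
  have hn3 : p ^ (n + 4) = p ^ 3 * p ^ (n + 1) := by ring
  rw [hn3] at e1 hN1
  generalize p ^ (n + 1) = Q at *
  have e3 : (p ^ 2 - 1) * (3 * L) ≤ (p ^ 2 - 1) * ((p + 1) * Q) :=
    mul_le_mul_of_nonneg_left hL (by nlinarith)
  have e4 : Q * (2 * p ^ 3 - p ^ 2 + p + 1) ≤ 3 * p ^ 2 + 3 * p - 3 := by nlinarith
  have e6 : 0 ≤ 2 * p ^ 3 - p ^ 2 + p + 1 := by
    have : 0 ≤ p ^ 2 * (p - 3) := mul_nonneg (by positivity) (by omega)
    nlinarith
  have e5 : p * (2 * p ^ 3 - p ^ 2 + p + 1) ≤ Q * (2 * p ^ 3 - p ^ 2 + p + 1) :=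
    mul_le_mul_of_nonneg_right hQ e6
  have h1 : 0 ≤ p ^ 2 * (p - 3) := mul_nonneg (by positivity) (by omega)
  have h2 : 0 ≤ p ^ 3 * (p - 3) := mul_nonneg (by positivity) (by omega)
  nlinarith

lemma F2_small (p N L M A : ℤ) (hp : 3 ≤ p) (hM : (p + 1) * M ≤ N)
    (hA : 3 ≤ A) (hN1 : N - 1 = p ^ 3 * A)
    (hN : N = p + A + (p - 1) * (L + M)) (hL : L ≤ 2 * (p + 1)) : False := by
  have h := stepF2 p N L M A 0 hp hM (by omega) (by simpa using hN1) hN
  have e3 : (p ^ 2 - 1) * L ≤ (p ^ 2 - 1) * (2 * (p + 1)) :=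
    mul_le_mul_of_nonneg_left hL (by nlinarith)
  have e1 : p ^ 3 * 3 ≤ p ^ 3 * A := mul_le_mul_of_nonneg_left hA (by positivity)
  have h1 : 0 ≤ p ^ 2 * (p - 3) := mul_nonneg (by positivity) (by omega)
  nlinarith

lemma odd_dvd {a : ℤ} (ha : Odd a) (k : ℕ) (h : a ∣ 2 ^ k) (hpos : 0 < a) : a = 1 := by
  lift a to ℕ using hpos.le
  have h1 : a ∣ 2 ^ k := by exact_mod_cast h
  obtain ⟨j, _, rfl⟩ := (Nat.dvd_prime_pow Nat.prime_two).1 h1
  rcases j with _ | j
  · simp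
  · exfalso
    obtain ⟨c, hc⟩ := ha
    push_cast at hc
    rw [pow_succ] at hc
    omega

lemma two_mul_pow_le {x k : ℕ} (h : x ≤ k) : 2 * (2 : ℤ) ^ x ≤ 2 ^ (k + 1) := by
  rw [pow_succ]
  have : (2 : ℤ) ^ x ≤ 2 ^ k := pow_le_pow_right₀ (by norm_num) h
  linarith

lemma pow_inj {x y : ℕ} (h : (2 : ℤ) ^ x = 2 ^ y) : x = y :=
  pow_right_injective₀ (by norm_num) (by norm_num) h

lemma four_mul_add_le {x y k : ℕ} (hx : x ≤ k) (hy : y ≤ k) (hne : x ≠ y) :
    4 * ((2 : ℤ) ^ x + 2 ^ y) ≤ 3 * 2 ^ (k + 1) := by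
  have key : ∀ x y : ℕ, x < y → y ≤ k → 4 * ((2 : ℤ) ^ x + 2 ^ y) ≤ 3 * 2 ^ (k + 1) := by
    intro x y h1 h2
    have e1 := two_mul_pow_le h2
    obtain ⟨j, rfl⟩ : ∃ j, y = j + 1 := ⟨y - 1, by omega⟩
    have e2 := two_mul_pow_le (show x ≤ j by omega)
    linarith
  rcases lt_or_gt_of_ne hne with h | h
  · exact key x y h hy
  · have := key y x h hx
    linarith

/-- if `2^y (p-1) < 2^(k+1)` with `p` odd then `2^y (p+1) ≤ 2^(k+1)` -/
lemma mult_bound {p : ℤ} {y k : ℕ} (hodd : Odd p) (hy : y ≤ k)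
    (h : (p - 1) * 2 ^ y < (2 : ℤ) ^ (k + 1)) : (p + 1) * 2 ^ y ≤ (2 : ℤ) ^ (k + 1) := by
  obtain ⟨j, rfl⟩ : ∃ j, k = y + j := ⟨k - y, by omega⟩
  have e : (2 : ℤ) ^ (y + j + 1) = 2 * 2 ^ j * 2 ^ y := by ring
  rw [e] at h ⊢
  have hpos : (0 : ℤ) < 2 ^ y := by positivity
  have h1 : p - 1 < 2 * 2 ^ j := lt_of_mul_lt_mul_right h hpos.le
  obtain ⟨c, rfl⟩ := hodd
  exact mul_le_mul_of_nonneg_right (by omega) hpos.le

lemma core (p k m x y b g : ℕ) (hp : 3 ≤ p) (hodd : Odd p) (hm : 3 ≤ m) (hx : x ≤ k)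
    (hy : y ≤ k) (hbg : b ≤ g) (hgm : g ≤ m) (hne : ¬ (x = y ∧ b = g))
    (E : (2 : ℤ) ^ (k + 1) * S p m = S p (m + 1) + 2 ^ x * (p : ℤ) ^ b + 2 ^ y * (p : ℤ) ^ g) :
    m = 3 ∧ p + 1 = 2 ^ (k + 1) := by
  -- divisibility by the smaller power of two
  have hdiv : ∀ l, l ≤ x → l ≤ y → (2 : ℤ) ^ l ∣ S p (m + 1) := by
    intro l h1 h2
    have e : S p (m + 1) = 2 ^ (k + 1) * S p m - 2 ^ x * (p : ℤ) ^ b - 2 ^ y * (p : ℤ) ^ g := by
      linarith
    rw [e]
    exact dvd_sub (dvd_sub (Dvd.dvd.mul_right (pow_dvd_pow 2 (by omega)) _)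
      (Dvd.dvd.mul_right (pow_dvd_pow 2 h1) _)) (Dvd.dvd.mul_right (pow_dvd_pow 2 h2) _)
  obtain ⟨q, hq⟩ : ∃ q : ℤ, q = (p : ℤ) := ⟨_, rfl⟩
  have hq3 : 3 ≤ q := by rw [hq]; exact_mod_cast hp
  have hqodd : Odd q := by rw [hq]; exact_mod_cast hodd
  obtain ⟨N, hNdef⟩ : ∃ N : ℤ, N = 2 ^ (k + 1) := ⟨_, rfl⟩
  obtain ⟨X, hXdef⟩ : ∃ X : ℤ, X = 2 ^ x := ⟨_, rfl⟩
  obtain ⟨Y, hYdef⟩ : ∃ Y : ℤ, Y = 2 ^ y := ⟨_, rfl⟩
  have hX : 1 ≤ X := by rw [hXdef]; exact one_le_pow₀ (by norm_num)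
  have hY : 1 ≤ Y := by rw [hYdef]; exact one_le_pow₀ (by norm_num)
  have h2X : 2 * X ≤ N := by rw [hXdef, hNdef]; exact two_mul_pow_le hx
  have h2Y : 2 * Y ≤ N := by rw [hYdef, hNdef]; exact two_mul_pow_le hy
  have hNeven : ∃ c, N = 2 * c := ⟨2 ^ k, by rw [hNdef, pow_succ]; ring⟩
  have hq0 : (q : ℤ) ≠ 0 := by omega
  have H : q ^ m * (N - q) = N - 1 + (q - 1) * (X * q ^ b + Y * q ^ g) := by
    have h1 := S_mul q m
    have h2 := S_mul q (m + 1)
    rw [← hq, ← hNdef, ← hXdef, ← hYdef] at E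
    rw [pow_succ] at h2
    linear_combination (q - 1) * E - N * h1 + h2
  have E' : N * S q m = S q (m + 1) + X * q ^ b + Y * q ^ g := by
    rw [hNdef, hXdef, hYdef, hq]; exact E
  have hNq : q < N := by
    by_contra hc
    have h1 : q ^ m * (N - q) ≤ 0 := mul_nonpos_of_nonneg_of_nonpos (by positivity) (by omega)
    have h2 : 0 ≤ (q - 1) * (X * q ^ b + Y * q ^ g) :=
      mul_nonneg (by omega) (by positivity)
    omega
  obtain ⟨n, rfl⟩ : ∃ n, m = n + 3 := ⟨m - 3, by omega⟩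
  by_cases hN2 : N < 2 * q
  · have hne' : ¬ (X = Y ∧ b = g) := by
      rintro ⟨h1, h2⟩
      exact hne ⟨pow_inj (by rw [← hXdef, ← hYdef]; exact h1), h2⟩
    obtain ⟨h1, h2⟩ := caseA q N X Y n b g hq3 hX hY h2X h2Y hN2 hNq hbg hne' E'
    refine ⟨by omega, ?_⟩
    have : ((p + 1 : ℕ) : ℤ) = ((2 ^ (k + 1) : ℕ) : ℤ) := by
      push_cast
      rw [← hNdef, ← hq, h2]
    exact_mod_cast this
  exfalso
  push Not at hN2
  have hg1 : n + 2 ≤ g := by
    by_contra hc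
    exact stepB1 q N X Y n b g hq3 hX hY h2X h2Y hN2 hbg (by omega) H
  rcases Nat.lt_or_ge g (n + 3) with hg | hg
  · have hg2 : g = n + 2 := by omega
    subst hg2
    rcases Nat.lt_or_ge b (n + 2) with hb | hb
    · exact stepB2 q N X Y n b hq3 hX hY h2X h2Y hN2 (by omega) H
    · have hb2 : b = n + 2 := by omega
      subst hb2
      refine stepB3 q N X Y n hq3 ?_ hN2 H
      rw [hXdef, hYdef, hNdef]
      exact four_mul_add_le hx hy (fun h => hne ⟨h, rfl⟩)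
  have hg3 : g = n + 3 := by omega
  subst hg3
  obtain ⟨B, hBdef⟩ : ∃ B, B = N - q - (q - 1) * Y := ⟨_, rfl⟩
  have HB : q ^ (n + 3) * B = N - 1 + (q - 1) * (X * q ^ b) := by
    rw [hBdef]; linear_combination H
  have hB : 1 ≤ B := by
    by_contra hc
    have h1 : q ^ (n + 3) * B ≤ 0 := mul_nonpos_of_nonneg_of_nonpos (by positivity) (by omega)
    have h2 : 0 ≤ (q - 1) * (X * q ^ b) := mul_nonneg (by omega) (by positivity)
    omega
  have hNB : N = q + B + (q - 1) * Y := by rw [hBdef]; ring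
  have hVY : (q + 1) * Y ≤ N := by
    rw [hYdef, hNdef]
    apply mult_bound hqodd hy
    rw [← hYdef, ← hNdef]
    linarith
  have h2N : 2 * N ≤ (q + 1) * (q + B) := by
    have h1 : 2 * Y ≤ q + B := by linarith
    nlinarith [mul_nonneg (by omega : (0 : ℤ) ≤ q - 1) (by omega : (0 : ℤ) ≤ q + B - 2 * Y)]
  rcases Nat.lt_or_ge n b with hb | hb
  swap
  · exact stepD q N X Y B n b hq3 hX h2X hb hB h2N HB
  rcases Nat.lt_or_ge (n + 1) b with hb1 | hb1
  swap
  · -- b = n + 1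
    have hb' : b = n + 1 := by omega
    subst hb'
    obtain ⟨A, hAdef⟩ : ∃ A, A = q ^ 2 * B - (q - 1) * X := ⟨_, rfl⟩
    have hN1 : N - 1 = q ^ (n + 1) * A := by
      rw [hAdef]; linear_combination -HB
    have hA : 1 ≤ A := by
      by_contra hc
      have h1 : q ^ (n + 1) * A ≤ 0 := mul_nonpos_of_nonneg_of_nonpos (by positivity) (by omega)
      omega
    obtain ⟨hn, hBq⟩ := stepE q N X Y A B n hq3 hX h2X hB h2N hA hN1 (by rw [hAdef]; ring)
    subst hn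
    rw [zero_add, pow_one] at hN1
    have h2Y' : 2 * Y ≤ q + B := by linarith
    have hd : q ∣ B - Y - 1 := ⟨A - 1 - Y, by linear_combination hN1 - hNB⟩
    have h0 := dvd_small hd (by omega) (by omega)
    have hBY : B = Y + 1 := by omega
    have hYeven : Even Y := by
      have h1 : N = q + 1 + q * Y := by rw [hNB, hBY]; ring
      obtain ⟨c, hc⟩ := hNeven
      obtain ⟨d, hd⟩ := hqodd
      have h2 : Even (q * Y) := ⟨c - d - 1, by omega⟩
      rcases Int.even_mul.1 h2 with h | h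
      · exact absurd h (Int.not_even_iff_odd.2 ⟨d, hd⟩)
      · exact h
    have hXY : (q - 1) * X = (q - 1) * ((q + 1) * (Y + 1)) := by
      have h1 : A = Y + 1 := by
        have h3 : q * (A - 1 - Y) = 0 := by linear_combination h0 - hN1 + hNB
        have h4 := (mul_eq_zero.1 h3).resolve_left hq0
        omega
      rw [h1, hBY] at hAdef
      linear_combination hAdef
    have hXY' := mul_left_cancel₀ (by omega : q - 1 ≠ 0) hXY
    have h5 : Y + 1 ∣ 2 ^ x := by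
      rw [← hXdef, hXY']; exact Dvd.intro_left _ rfl
    have h6 := odd_dvd hYeven.add_one x h5 (by omega)
    omega
  rcases Nat.lt_or_ge (n + 2) b with hb2 | hb2
  swap
  · -- b = n + 2
    have hb' : b = n + 2 := by omega
    subst hb'
    obtain ⟨A, hAdef⟩ : ∃ A, A = q * B - (q - 1) * X := ⟨_, rfl⟩
    have hN1 : N - 1 = q ^ (n + 2) * A := by
      rw [hAdef]; linear_combination -HB
    have hA : 1 ≤ A := by
      by_contra hc
      have h1 : q ^ (n + 2) * A ≤ 0 := mul_nonpos_of_nonneg_of_nonpos (by positivity) (by omega)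
      omega
    have hAB : A + (q - 1) * X = q * B := by rw [hAdef]; ring
    rcases n with _ | n
    · -- m = 3
      rw [zero_add] at hN1
      have hA7 : 7 ≤ A := by
        have h9 : 9 ≤ q ^ 2 := by nlinarith
        have h10 : 10 ≤ N := by nlinarith
        have hk : 4 ≤ k + 1 := by
          by_contra hc
          have : (2 : ℤ) ^ (k + 1) ≤ 2 ^ 3 := pow_le_pow_right₀ (by norm_num) (by omega)
          rw [← hNdef] at this
          omega
        obtain ⟨j, hj⟩ : ∃ j, k + 1 = 3 + j := ⟨k + 1 - 3, by omega⟩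
        have h8 : N = 8 * 2 ^ j := by rw [hNdef, hj, pow_add]; norm_num
        have hsq : ∃ e, q ^ 2 = 8 * e + 1 := by
          obtain ⟨d, hd⟩ := hqodd
          obtain ⟨e, he⟩ := Int.even_mul_succ_self d
          exact ⟨e, by rw [hd]; linear_combination 4 * he⟩
        obtain ⟨e, he⟩ := hsq
        rw [he, h8] at hN1
        by_contra hc
        have hA' : A ≤ 6 := by omega
        interval_cases A <;> omega
      rcases Nat.le_total x y with hxy | hxy
      · refine F1a_small q N X Y A B hq3 hX hB h2N (by omega) hN1 hAB ?_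
        have h := lte p 3 x hp hodd (by decide) (hdiv x le_rfl hxy)
        have h' : ((2 ^ (x + 1) : ℕ) : ℤ) ≤ (((p + 1) * (3 + 1) : ℕ) : ℤ) := by exact_mod_cast h
        push_cast at h'
        rw [← hq, pow_succ, ← hXdef] at h'
        omega
      · refine F1b_small q N X Y A B hq3 h2X hA7 hN1 hAB hNB ?_
        have h := lte p 3 y hp hodd (by decide) (hdiv y hxy le_rfl)
        have h' : ((2 ^ (y + 1) : ℕ) : ℤ) ≤ (((p + 1) * (3 + 1) : ℕ) : ℤ) := by exact_mod_cast h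
        push_cast at h'
        rw [← hq, pow_succ, ← hYdef] at h'
        omega
    · rcases Nat.le_total x y with hxy | hxy
      · refine F1a_big q N X Y A B n hq3 hX hB h2N hA hN1 hAB ?_
        have h := Lbound p (n + 1 + 3) x hp hodd (by omega) (hdiv x le_rfl hxy)
        rw [show n + 1 + 3 - 3 = n + 1 by omega] at h
        have h' : ((3 * 2 ^ x : ℕ) : ℤ) ≤ (((p + 1) * p ^ (n + 1) : ℕ) : ℤ) := by exact_mod_cast h
        push_cast at h'
        rw [← hq, ← hXdef] at h'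
        exact h'
      · refine F1b_big q N X Y A B n hq3 h2X hA hN1 hAB hNB ?_
        have h := Lbound p (n + 1 + 3) y hp hodd (by omega) (hdiv y hxy le_rfl)
        rw [show n + 1 + 3 - 3 = n + 1 by omega] at h
        have h' : ((3 * 2 ^ y : ℕ) : ℤ) ≤ (((p + 1) * p ^ (n + 1) : ℕ) : ℤ) := by exact_mod_cast h
        push_cast at h'
        rw [← hq, ← hYdef] at h'
        exact h'
  -- b = n + 3
  have hb' : b = n + 3 := by omega
  subst hb'
  have hxyne : x ≠ y := fun h => hne ⟨h, rfl⟩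
  obtain ⟨A, hAdef⟩ : ∃ A, A = B - (q - 1) * X := ⟨_, rfl⟩
  have hN1 : N - 1 = q ^ (n + 3) * A := by
    rw [hAdef]; linear_combination -HB
  have hA : 1 ≤ A := by
    by_contra hc
    have h1 : q ^ (n + 3) * A ≤ 0 := mul_nonpos_of_nonneg_of_nonpos (by positivity) (by omega)
    omega
  -- a symmetric statement
  have key : ∀ (l u : ℕ) (L M : ℤ), L = 2 ^ l → M = 2 ^ u → u ≤ k →
      (2 : ℤ) ^ l ∣ S p (n + 3 + 1) → N = q + A + (q - 1) * (L + M) → False := by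
    intro l u L M hL hM hu hdl hNLM
    have hL1 : 1 ≤ L := by rw [hL]; exact one_le_pow₀ (by norm_num)
    have hVM : (q + 1) * M ≤ N := by
      rw [hM, hNdef]
      apply mult_bound hqodd hu
      rw [← hM, ← hNdef]
      have : 0 ≤ (q - 1) * L := mul_nonneg (by omega) (by omega)
      rw [hNLM]
      linarith
    rcases n with _ | n
    · rw [zero_add] at hN1
      have hA3 : 3 ≤ A := by
        by_contra hc
        have h12 : A = 1 ∨ A = 2 := by omega
        rcases h12 with h | h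
        · rw [h] at hN1
          have h1 : (q + 1) * (q * (q - 1) + 1) = 2 ^ (k + 1) := by
            rw [← hNdef]; linear_combination -hN1
          have h2 : q * (q - 1) + 1 ∣ 2 ^ (k + 1) := ⟨q + 1, by rw [← h1]; ring⟩
          have h3 : Odd (q * (q - 1) + 1) := (Int.even_mul_pred_self q).add_one
          have h4 := odd_dvd h3 _ h2 (by nlinarith)
          nlinarith
        · rw [h] at hN1
          obtain ⟨c, hc⟩ := hNeven
          omega
      refine F2_small q N L M A hq3 hVM hA3 hN1 hNLM ?_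
      have h := lte p 3 l hp hodd (by decide) hdl
      have h' : ((2 ^ (l + 1) : ℕ) : ℤ) ≤ (((p + 1) * (3 + 1) : ℕ) : ℤ) := by exact_mod_cast h
      push_cast at h'
      rw [← hq, pow_succ, ← hL] at h'
      omega
    · refine F2_big q N L M A n hq3 hVM hA hN1 hNLM ?_
      have h := Lbound p (n + 1 + 3) l hp hodd (by omega) hdl
      rw [show n + 1 + 3 - 3 = n + 1 by omega] at h
      have h' : ((3 * 2 ^ l : ℕ) : ℤ) ≤ (((p + 1) * p ^ (n + 1) : ℕ) : ℤ) := by exact_mod_cast h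
      push_cast at h'
      rw [← hq, ← hL] at h'
      exact h'
  rcases Nat.le_total x y with hxy | hxy
  · exact key x y X Y hXdef hYdef hy (hdiv x le_rfl hxy) (by rw [hAdef]; linear_combination hNB)
  · exact key y x Y X hYdef hXdef hx (hdiv y hxy le_rfl) (by rw [hAdef]; linear_combination hNB)

lemma pow_eq_one_or_even (x : ℕ) : (2 : ℤ) ^ x = 1 ∨ ∃ c : ℤ, 1 ≤ c ∧ (2 : ℤ) ^ x = 2 * c := by
  rcases x with _ | x
  · left; simp
  · right; exact ⟨2 ^ x, one_le_pow₀ (by norm_num), by rw [pow_succ]; ring⟩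

/-- the case `m = 2` -/
lemma core2 (p k x y b g : ℕ) (hp : 3 ≤ p) (hodd : Odd p) (hx : x ≤ k)
    (hy : y ≤ k) (hbg : b ≤ g) (hgm : g ≤ 2)
    (E : (2 : ℤ) ^ (k + 1) * S p 2 = S p (2 + 1) + 2 ^ x * (p : ℤ) ^ b + 2 ^ y * (p : ℤ) ^ g) :
    (p = 3 ∧ k = 1) ∨ (p = 3 ∧ k = 2) ∨ (p = 5 ∧ k = 3) := by
  obtain ⟨q, hq⟩ : ∃ q : ℤ, q = (p : ℤ) := ⟨_, rfl⟩
  have hq3 : 3 ≤ q := by rw [hq]; exact_mod_cast hp
  have hqodd : Odd q := by rw [hq]; exact_mod_cast hodd
  obtain ⟨N, hNdef⟩ : ∃ N : ℤ, N = 2 ^ (k + 1) := ⟨_, rfl⟩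
  obtain ⟨X, hXdef⟩ : ∃ X : ℤ, X = 2 ^ x := ⟨_, rfl⟩
  obtain ⟨Y, hYdef⟩ : ∃ Y : ℤ, Y = 2 ^ y := ⟨_, rfl⟩
  have hX : 1 ≤ X := by rw [hXdef]; exact one_le_pow₀ (by norm_num)
  have hY : 1 ≤ Y := by rw [hYdef]; exact one_le_pow₀ (by norm_num)
  have h2X : 2 * X ≤ N := by rw [hXdef, hNdef]; exact two_mul_pow_le hx
  have h2Y : 2 * Y ≤ N := by rw [hYdef, hNdef]; exact two_mul_pow_le hy
  have hNeven : ∃ c, N = 2 * c := ⟨2 ^ k, by rw [hNdef, pow_succ]; ring⟩
  have hXc := pow_eq_one_or_even x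
  have hYc := pow_eq_one_or_even y
  rw [← hXdef] at hXc
  rw [← hYdef] at hYc
  have hS2 : S (p : ℤ) 2 = 1 + q := by
    rw [hq, show (2 : ℕ) = 1 + 1 from rfl, S_succ, show (1 : ℕ) = 0 + 1 from rfl, S_succ, S_zero]
    push_cast; ring
  have hS3 : S (p : ℤ) (2 + 1) = 1 + q + q ^ 2 := by
    rw [S_succ, hS2, hq]; ring
  rw [hS2, hS3, ← hNdef, ← hXdef, ← hYdef, ← hq] at E
  obtain ⟨d, hd⟩ := hqodd
  have hqpow : ∀ j : ℕ, Odd (q ^ j) := fun j => Odd.pow ⟨d, hd⟩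
  -- exactly one of X, Y equals 1
  have hpar : (X = 1 ∧ ∃ c : ℤ, 1 ≤ c ∧ Y = 2 * c) ∨ (Y = 1 ∧ ∃ c : ℤ, 1 ≤ c ∧ X = 2 * c) := by
    obtain ⟨c0, hc0⟩ := hNeven
    obtain ⟨b1, hb1⟩ := hqpow b
    obtain ⟨g1, hg1⟩ := hqpow g
    obtain ⟨s1, hs1⟩ := hqpow 2
    rcases hXc with h1 | ⟨c1, h1, h1'⟩ <;> rcases hYc with h2 | ⟨c2, h2, h2'⟩
    · exfalso
      rw [h1, h2, hb1, hg1, hs1, hc0] at E
      have : 2 * (c0 * (1 + q)) = 1 + q + (2 * s1 + 1) + 1 * (2 * b1 + 1) + 1 * (2 * g1 + 1) := by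
        rw [← E]; ring
      omega
    · exact Or.inl ⟨h1, c2, h2, h2'⟩
    · exact Or.inr ⟨h2, c1, h1, h1'⟩
    · exfalso
      rw [h1', h2', hb1, hg1, hs1, hc0] at E
      have : 2 * (c0 * (1 + q)) = 1 + q + (2 * s1 + 1) + 2 * (c1 * (2 * b1 + 1)) +
          2 * (c2 * (2 * g1 + 1)) := by
        linarith
      omega
  have hNq : q < N := by
    by_contra hc
    have h1 : 0 < X * q ^ b := by positivity
    have h2 : 0 < Y * q ^ g := by positivity
    nlinarith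
  -- reading off p and k
  have hk : ∀ j : ℕ, N = 2 ^ j → k + 1 = j := by
    intro j hj
    exact pow_inj (by rw [← hNdef]; exact hj)
  by_cases hN2 : N < 2 * q
  · obtain ⟨t, ht⟩ : ∃ t, t = N - q := ⟨_, rfl⟩
    have hE1 : t * (1 + q) = 1 + X * q ^ b + Y * q ^ g := by rw [ht]; linear_combination E
    have ht1 : 1 ≤ t := by omega
    have ht2 : t ≤ q - 1 := by omega
    obtain ⟨c0, hc0⟩ := hNeven
    have htodd : ∃ e, t = 2 * e + 1 := ⟨c0 - d - 1, by omega⟩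
    obtain ⟨e, he⟩ := htodd
    have hcases : (b = 0 ∧ g = 0) ∨ (b = 0 ∧ g = 1) ∨ (b = 0 ∧ g = 2) ∨ (b = 1 ∧ g = 1) ∨
        (b = 1 ∧ g = 2) ∨ (b = 2 ∧ g = 2) := by omega
    rcases hcases with ⟨rfl, rfl⟩ | ⟨rfl, rfl⟩ | ⟨rfl, rfl⟩ | ⟨rfl, rfl⟩ | ⟨rfl, rfl⟩ | ⟨rfl, rfl⟩
    · -- 0 0
      simp only [pow_zero, mul_one] at hE1
      have ht0 : t = 1 := by
        by_contra hc
        have : 2 ≤ t := by omega
        nlinarith
      rw [ht0] at hE1
      have hq' : q = 3 ∧ N = 4 := by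
        rcases hpar with ⟨h, _⟩ | ⟨h, _⟩ <;> constructor <;> omega
      left
      refine ⟨by omega, ?_⟩
      have := hk 2 (by rw [hq'.2]; norm_num)
      omega
    · -- 0 1
      exfalso
      simp only [pow_zero, pow_one, mul_one] at hE1
      have hdv : q ∣ t - 1 - X := ⟨Y - t, by linear_combination hE1⟩
      have h0 := dvd_small hdv (by omega) (by omega)
      have h1 : q * t = q * Y := by
        linear_combination hE1 - h0
      have h2 := mul_left_cancel₀ (by omega : q ≠ 0) h1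
      rcases hpar with ⟨h, c, hc, hc'⟩ | ⟨h, c, hc, hc'⟩ <;> omega
    · -- 0 2
      exfalso
      simp only [pow_zero, mul_one] at hE1
      have hdv : q ∣ t - 1 - X := ⟨Y * q - t, by linear_combination hE1⟩
      have h0 := dvd_small hdv (by omega) (by omega)
      have h1 : q * t = q * (Y * q) := by
        linear_combination hE1 - h0
      have h2 := mul_left_cancel₀ (by omega : q ≠ 0) h1
      nlinarith
    · -- 1 1
      exfalso
      simp only [pow_one] at hE1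
      have hdv : q ∣ t - 1 := ⟨X + Y - t, by linear_combination hE1⟩
      have h0 := dvd_small hdv (by omega) (by omega)
      have ht0 : t = 1 := by omega
      rw [ht0] at hE1
      nlinarith
    · -- 1 2
      exfalso
      simp only [pow_one] at hE1
      have hdv : q ∣ t - 1 := ⟨X + Y * q - t, by linear_combination hE1⟩
      have h0 := dvd_small hdv (by omega) (by omega)
      have ht0 : t = 1 := by omega
      rw [ht0] at hE1
      nlinarith
    · -- 2 2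
      exfalso
      have hdv : q ^ 2 ∣ t * (1 + q) - 1 := ⟨X + Y, by linear_combination hE1⟩
      have h0 := dvd_small hdv (by nlinarith) (by nlinarith)
      nlinarith
  push Not at hN2
  have hN2' : N ≠ 2 * q := by
    intro h
    have h1 : q = 2 ^ k := by
      rw [hNdef, pow_succ] at h; linarith
    rcases pow_eq_one_or_even k with h2 | ⟨c, _, h2⟩
    · omega
    · omega
  have hN22 : 2 * q + 2 ≤ N := by
    obtain ⟨c0, hc0⟩ := hNeven
    omega
  rcases Nat.lt_or_ge g 2 with hg | hg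
  · exfalso
    interval_cases g
    · -- g = 0
      have hb0 : b = 0 := by omega
      subst hb0
      simp only [pow_zero, mul_one] at E
      nlinarith
    · interval_cases b
      · simp only [pow_zero, pow_one, mul_one] at E
        have e1 : (N - q) * (1 + q) = 1 + X + Y * q := by linear_combination E
        have e2 : 2 * (Y * q) ≤ N * q := by nlinarith
        have e3 : 2 * ((N - q) * (1 + q)) ≤ 2 + N + N * q := by linarith
        nlinarith
      · simp only [pow_one] at E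
        have e1 : (N - q) * (1 + q) = 1 + (X + Y) * q := by linear_combination E
        have e2 : 2 * (X + Y) ≤ 2 + N := by
          rcases hpar with ⟨h, _⟩ | ⟨h, _⟩ <;> omega
        have e3 : 2 * (X + Y) * q ≤ (2 + N) * q := mul_le_mul_of_nonneg_right e2 (by omega)
        nlinarith
  have hg2 : g = 2 := by omega
  subst hg2
  obtain ⟨B, hBdef⟩ : ∃ B, B = N - q - (q - 1) * Y := ⟨_, rfl⟩
  have HB : q ^ 2 * B = N - 1 + (q - 1) * (X * q ^ b) := by
    rw [hBdef]; linear_combination (q - 1) * E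
  have hB : 1 ≤ B := by
    by_contra hc
    have h1 : q ^ 2 * B ≤ 0 := mul_nonpos_of_nonneg_of_nonpos (by positivity) (by omega)
    have h2 : 0 ≤ (q - 1) * (X * q ^ b) := mul_nonneg (by omega) (by positivity)
    omega
  have hNB : N = q + B + (q - 1) * Y := by rw [hBdef]; ring
  have hVY : (q + 1) * Y ≤ N := by
    rw [hYdef, hNdef]
    apply mult_bound ⟨d, hd⟩ hy
    rw [← hYdef, ← hNdef]
    linarith
  have h2YB : 2 * Y ≤ q + B := by linarith
  have hq1 : q - 1 ≠ 0 := by omega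
  interval_cases b
  · -- b = 0
    rw [pow_zero, mul_one] at HB
    rcases hpar with ⟨h, c, hc, hc'⟩ | ⟨h, c, hc, hc'⟩
    · rw [h] at HB
      have h1 : (q - 1) * (Y + 2) = (q - 1) * ((q + 1) * B) := by
        linear_combination -HB - hNB
      have h2 := mul_left_cancel₀ hq1 h1
      have hB1 : B = 1 := by
        by_contra hc
        have : 2 ≤ B := by omega
        nlinarith
      rw [hB1] at h2 HB
      have hq' : q = 3 := by nlinarith
      have hN8 : N = 8 := by rw [hq'] at HB; omega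
      right; left
      refine ⟨by omega, ?_⟩
      have := hk 3 (by rw [hN8]; norm_num)
      omega
    · exfalso
      rw [h] at hNB
      have h1 : (q - 1) * (X + 2) = (q - 1) * ((q + 1) * B) := by
        linear_combination -HB - hNB
      have h2 := mul_left_cancel₀ hq1 h1
      have hB1 : B = 1 := by
        by_contra hc
        have : 2 ≤ B := by omega
        nlinarith
      rw [hB1] at hNB
      exact hN2' (by linarith)
  · -- b = 1
    rw [pow_one] at HB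
    rcases hpar with ⟨h, c, hc, hc'⟩ | ⟨h, c, hc, hc'⟩
    · exfalso
      rw [h] at HB
      have h1 : (q - 1) * Y = (q - 1) * ((q + 1) * (B - 1)) := by
        linear_combination -HB - hNB
      have h2 := mul_left_cancel₀ hq1 h1
      have hB1 : 2 ≤ B := by
        by_contra hc
        have : B = 1 := by omega
        rw [this] at h2
        omega
      nlinarith
    · rw [h] at hNB
      have h1 : (q - 1) * (q * X) = (q - 1) * ((q + 1) * B - 2) := by
        linear_combination -HB - hNB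
      have h2 := mul_left_cancel₀ hq1 h1
      have h3 : q ∣ B - 2 := ⟨X - B, by linear_combination -h2⟩
      obtain ⟨u, hu⟩ := h3
      have hu0 : 0 ≤ u := by
        by_contra hc
        have : q * u ≤ q * (-1) := mul_le_mul_of_nonneg_left (by omega) (by omega)
        omega
      have hu1 : u ≤ 1 := by
        by_contra hc
        have h4 : q * 2 ≤ q * u := mul_le_mul_of_nonneg_left (by omega) (by omega)
        have h5 : 2 * q + 2 ≤ B := by omega
        have h6 : 2 * (q * X) ≤ q * N := by nlinarith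
        nlinarith
      have hu01 : u = 0 ∨ u = 1 := by omega
      obtain ⟨c0, hc0⟩ := hNeven
      rcases hu01 with hu2 | hu2
      · exfalso
        rw [hu2] at hu
        omega
      · rw [hu2, mul_one] at hu
        have hB2 : B = q + 2 := by omega
        rw [hB2] at h2 hNB
        have h4 : q * X = q * (q + 3) := by linear_combination h2
        have hXq := mul_left_cancel₀ (by omega : q ≠ 0) h4
        have hN3 : N = 3 * X - 8 := by rw [hNB, hXq]; ring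
        have hx3 : x = 3 := by
          by_contra hx3
          rcases Nat.lt_or_ge x 3 with hx' | hx'
          · have : (2 : ℤ) ^ x ≤ 2 ^ 2 := pow_le_pow_right₀ (by norm_num) (by omega)
            rw [← hXdef] at this
            omega
          · obtain ⟨j, hj⟩ : ∃ j, x = 4 + j := ⟨x - 4, by omega⟩
            obtain ⟨i, hi⟩ : ∃ i, k + 1 = 4 + i := ⟨k + 1 - 4, by omega⟩
            have e1 : X = 16 * 2 ^ j := by rw [hXdef, hj, pow_add]; norm_num
            have e2 : N = 16 * 2 ^ i := by rw [hNdef, hi, pow_add]; norm_num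
            rw [e1, e2] at hN3
            omega
        rw [hx3] at hXdef
        right; right
        have hX8 : X = 8 := by rw [hXdef]; norm_num
        refine ⟨by omega, ?_⟩
        have := hk 4 (by rw [hN3, hX8]; norm_num)
        omega
  · -- b = 2
    exfalso
    obtain ⟨A, hAdef⟩ : ∃ A, A = B - (q - 1) * X := ⟨_, rfl⟩
    have hN1 : N - 1 = q ^ 2 * A := by rw [hAdef]; linear_combination -HB
    have hA : 1 ≤ A := by
      by_contra hc
      have h1 : q ^ 2 * A ≤ 0 := mul_nonpos_of_nonneg_of_nonpos (by positivity) (by omega)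
      omega
    have hA2 : 2 ≤ A := by
      by_contra hc
      have hA1 : A = 1 := by omega
      rw [hA1] at hN1
      obtain ⟨i, hi⟩ : ∃ i, k + 1 = 2 + i := by
        rcases k with _ | k
        · exfalso
          rw [hNdef] at hN22
          norm_num at hN22
          omega
        · exact ⟨k, by omega⟩
      have e2 : N = 4 * 2 ^ i := by rw [hNdef, hi, pow_add]; norm_num
      have e3 : q ^ 2 = 4 * (d * d + d) + 1 := by rw [hd]; ring
      rw [e2, e3] at hN1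
      omega
    have hNA : N = q + A + (q - 1) * (X + Y) := by rw [hAdef]; linear_combination hNB
    have hVX : (q + 1) * X ≤ N := by
      rw [hXdef, hNdef]
      apply mult_bound ⟨d, hd⟩ hx
      rw [← hXdef, ← hNdef]
      have : 0 ≤ (q - 1) * Y := mul_nonneg (by omega) (by omega)
      rw [hNA]
      linarith
    have key : 2 * N ≤ (q + 1) * (2 * q - 1 + A) := by
      rcases hpar with ⟨h, _⟩ | ⟨h, _⟩
      · rw [h] at hNA
        have : (q - 1) * ((q + 1) * Y) ≤ (q - 1) * N := mul_le_mul_of_nonneg_left hVY (by omega)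
        nlinarith
      · rw [h] at hNA
        have : (q - 1) * ((q + 1) * X) ≤ (q - 1) * N := mul_le_mul_of_nonneg_left hVX (by omega)
        nlinarith
    have h3 : A * (2 * q ^ 2 - q - 1) ≤ 2 * q ^ 2 + q - 3 := by nlinarith
    have h4 : 2 * (2 * q ^ 2 - q - 1) ≤ A * (2 * q ^ 2 - q - 1) :=
      mul_le_mul_of_nonneg_right hA2 (by nlinarith)
    nlinarith

/-- `n` is 2-near perfect: `σ(n) = 2 n + d₁ + d₂` for two distinct positive divisors of `n`. -/
def TwoNearPerfect (n : ℕ) : Prop :=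
  0 < n ∧ ∃ d₁ d₂ : ℕ, d₁ ∣ n ∧ d₂ ∣ n ∧ d₁ ≠ d₂ ∧ ∑ d ∈ n.divisors, d = 2 * n + d₁ + d₂

lemma sum_two_pow (j : ℕ) : ∑ x ∈ range (j + 1), 2 ^ x + 1 = 2 ^ (j + 1) := by
  induction j with
  | zero => simp
  | succ j ih =>
    rw [sum_range_succ, pow_succ 2 (j + 1)]
    omega

lemma sigma_eq (k m p : ℕ) (hp : p.Prime) (hodd : Odd p) :
    ((∑ d ∈ (2 ^ k * p ^ m).divisors, d : ℕ) : ℤ) = (2 ^ (k + 1) - 1) * S p (m + 1) := by
  have hcop : (2 ^ k).Coprime (p ^ m) :=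
    Nat.Coprime.pow _ _ (Nat.coprime_two_left.2 hodd)
  rw [Nat.Coprime.sum_divisors_mul hcop, Nat.sum_divisors_prime_pow Nat.prime_two,
    Nat.sum_divisors_prime_pow hp]
  have h := sum_two_pow k
  have h' : ((∑ x ∈ range (k + 1), 2 ^ x : ℕ) : ℤ) = 2 ^ (k + 1) - 1 := by
    have : ((∑ x ∈ range (k + 1), 2 ^ x + 1 : ℕ) : ℤ) = ((2 ^ (k + 1) : ℕ) : ℤ) := by rw [h]
    push_cast at this ⊢
    linarith
  rw [Nat.cast_mul, h']
  unfold S
  push_cast
  rfl

lemma S_succ' (p : ℤ) (m : ℕ) : S p (m + 1) = S p m + p ^ m := by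
  unfold S; rw [sum_range_succ]

lemma dvd_form {k m p d : ℕ} (hp : p.Prime) (h : d ∣ 2 ^ k * p ^ m) :
    ∃ x b, x ≤ k ∧ b ≤ m ∧ d = 2 ^ x * p ^ b := by
  obtain ⟨a, c, ha, hc, rfl⟩ := (Nat.dvd_mul).1 h
  obtain ⟨x, hx, rfl⟩ := (Nat.dvd_prime_pow Nat.prime_two).1 ha
  obtain ⟨b, hb, rfl⟩ := (Nat.dvd_prime_pow hp).1 hc
  exact ⟨x, b, hx, hb, rfl⟩

lemma forward (k m p : ℕ) (hp : p.Prime) (hm : 2 ≤ m) (h : TwoNearPerfect (2 ^ k * p ^ m)) :
    (2 ^ k * p ^ m = 18 ∨ 2 ^ k * p ^ m = 36 ∨ 2 ^ k * p ^ m = 200) ∨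
      (m = 3 ∧ p + 1 = 2 ^ (k + 1)) := by
  obtain ⟨_, d₁, d₂, h1, h2, hne, hs⟩ := h
  rcases hp.eq_two_or_odd' with rfl | hodd
  · exfalso
    rw [← pow_add, Nat.sum_divisors_prime_pow Nat.prime_two] at hs
    have := sum_two_pow (k + m)
    rw [pow_succ 2 (k + m)] at this
    omega
  have hp3 : 3 ≤ p := by
    have := hp.two_le
    obtain ⟨c, hc⟩ := hodd
    omega
  have key : ∀ x b y g : ℕ, x ≤ k → b ≤ m → y ≤ k → g ≤ m → b ≤ g → ¬ (x = y ∧ b = g) →
      (∑ d ∈ (2 ^ k * p ^ m).divisors, d = 2 * (2 ^ k * p ^ m) + 2 ^ x * p ^ b + 2 ^ y * p ^ g) →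
      (2 ^ k * p ^ m = 18 ∨ 2 ^ k * p ^ m = 36 ∨ 2 ^ k * p ^ m = 200) ∨
      (m = 3 ∧ p + 1 = 2 ^ (k + 1)) := by
    intro x b y g hx hb hy hg hbg hne hs
    have hs' : ((∑ d ∈ (2 ^ k * p ^ m).divisors, d : ℕ) : ℤ) =
        ((2 * (2 ^ k * p ^ m) + 2 ^ x * p ^ b + 2 ^ y * p ^ g : ℕ) : ℤ) := by rw [hs]
    rw [sigma_eq k m p hp hodd] at hs'
    push_cast at hs'
    have E : (2 : ℤ) ^ (k + 1) * S p m =
        S p (m + 1) + 2 ^ x * (p : ℤ) ^ b + 2 ^ y * (p : ℤ) ^ g := by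
      have h3 := S_succ' (p : ℤ) m
      rw [pow_succ] at hs' ⊢
      rw [h3] at hs' ⊢
      linear_combination hs'
    rcases Nat.lt_or_ge m 3 with hm3 | hm3
    · have hm2 : m = 2 := by omega
      subst hm2
      left
      rcases core2 p k x y b g hp3 hodd hx hy hbg hg E with ⟨rfl, rfl⟩ | ⟨rfl, rfl⟩ | ⟨rfl, rfl⟩
      · left; norm_num
      · right; left; norm_num
      · right; right; norm_num
    · right
      exact core p k m x y b g hp3 hodd hm3 hx hy hbg hg hne E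
  obtain ⟨x, b, hx, hb, rfl⟩ := dvd_form hp h1
  obtain ⟨y, g, hy, hg, rfl⟩ := dvd_form hp h2
  have hne' : ¬ (x = y ∧ b = g) := by
    rintro ⟨rfl, rfl⟩; exact hne rfl
  rcases Nat.le_total b g with hbg | hbg
  · exact key x b y g hx hb hy hg hbg hne' hs
  · exact key y g x b hy hg hx hb hbg (fun h => hne' ⟨h.1.symm, h.2.symm⟩) (by rw [hs]; ring)

lemma tnp18 : TwoNearPerfect 18 := ⟨by norm_num, 1, 2, by norm_num, by norm_num, by norm_num, by decide +kernel⟩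
lemma tnp36 : TwoNearPerfect 36 := ⟨by norm_num, 1, 18, by norm_num, by norm_num, by norm_num, by decide +kernel⟩
lemma tnp200 : TwoNearPerfect 200 := ⟨by norm_num, 25, 40, by norm_num, by norm_num, by norm_num, by decide +kernel⟩

lemma tnp_mersenne (k p : ℕ) (hp : p.Prime) (h : p + 1 = 2 ^ (k + 1)) :
    TwoNearPerfect (2 ^ k * p ^ 3) := by
  have hodd : Odd p := by
    rcases hp.eq_two_or_odd' with rfl | h'
    · exfalso
      rw [pow_succ] at h
      omega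
    · exact h'
  refine ⟨by have := hp.pos; positivity, p, p ^ 2, ?_, ?_, ?_, ?_⟩
  · exact Dvd.dvd.mul_left (dvd_pow_self p (by norm_num)) _
  · exact Dvd.dvd.mul_left (pow_dvd_pow p (by norm_num)) _
  · have := hp.two_le
    nlinarith
  · have h1 := sigma_eq k 3 p hp hodd
    have h2 : ((p + 1 : ℕ) : ℤ) = ((2 ^ (k + 1) : ℕ) : ℤ) := by rw [h]
    push_cast at h2
    have h3 : S (p : ℤ) (3 + 1) = 1 + p + p ^ 2 + p ^ 3 := by
      unfold S
      simp [Finset.sum_range_succ]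
    rw [h3, ← h2] at h1
    have h4 : (2 : ℤ) * 2 ^ k = p + 1 := by rw [h2]; ring
    have h5 : ((∑ d ∈ (2 ^ k * p ^ 3).divisors, d : ℕ) : ℤ) =
        ((2 * (2 ^ k * p ^ 3) + p + p ^ 2 : ℕ) : ℤ) := by
      rw [h1]
      push_cast
      linear_combination (-(p : ℤ) ^ 3) * h4
    exact_mod_cast h5

/-- The numbers in the question: 2-near perfect, of the form `2^k p^m`, `p` prime, `m ≥ 2`. -/
def A : Set ℕ := {n | TwoNearPerfect n ∧ ∃ k m p : ℕ, p.Prime ∧ 2 ≤ m ∧ n = 2 ^ k * p ^ m}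

lemma classification (k m p : ℕ) (hp : p.Prime) (hm : 2 ≤ m) :
    TwoNearPerfect (2 ^ k * p ^ m) ↔
      (2 ^ k * p ^ m = 18 ∨ 2 ^ k * p ^ m = 36 ∨ 2 ^ k * p ^ m = 200) ∨
      (m = 3 ∧ p + 1 = 2 ^ (k + 1)) := by
  constructor
  · exact forward k m p hp hm
  · rintro ((h | h | h) | ⟨rfl, h⟩)
    · rw [h]; exact tnp18
    · rw [h]; exact tnp36
    · rw [h]; exact tnp200
    · exact tnp_mersenne k p hp h

lemma A_eq : A = {18, 36, 200} ∪ (fun j : ℕ => 2 ^ (j - 1) * (2 ^ j - 1) ^ 3) ''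
    {j : ℕ | (2 ^ j - 1).Prime} := by
  ext n
  constructor
  · rintro ⟨hn, k, m, p, hp, hm, rfl⟩
    rcases forward k m p hp hm hn with h | ⟨rfl, h⟩
    · left
      simpa using h
    · right
      refine ⟨k + 1, ?_, ?_⟩
      · show (2 ^ (k + 1) - 1).Prime
        rw [← h]; simpa using hp
      · show 2 ^ (k + 1 - 1) * (2 ^ (k + 1) - 1) ^ 3 = _
        rw [← h]; simp
  · rintro (h | ⟨j, hj, rfl⟩)
    · simp only [Set.mem_insert_iff, Set.mem_singleton_iff] at h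
      rcases h with rfl | rfl | rfl
      · exact ⟨tnp18, 1, 2, 3, by norm_num, by norm_num, by norm_num⟩
      · exact ⟨tnp36, 2, 2, 3, by norm_num, by norm_num, by norm_num⟩
      · exact ⟨tnp200, 3, 2, 5, by norm_num, by norm_num, by norm_num⟩
    · have hj' : (2 ^ j - 1).Prime := hj
      obtain ⟨k, rfl⟩ : ∃ k, j = k + 1 := by
        rcases j with _ | k
        · exfalso; norm_num at hj'
        · exact ⟨k, rfl⟩
      refine ⟨?_, k, 3, 2 ^ (k + 1) - 1, hj', by norm_num, by simp⟩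
      show TwoNearPerfect (2 ^ (k + 1 - 1) * (2 ^ (k + 1) - 1) ^ 3)
      rw [Nat.add_sub_cancel]
      refine tnp_mersenne k _ hj' ?_
      have : 1 ≤ 2 ^ (k + 1) := Nat.one_le_two_pow
      omega

lemma f_mono {i j : ℕ} (hi : 1 ≤ i) (hij : i < j) :
    2 ^ (i - 1) * (2 ^ i - 1) ^ 3 < 2 ^ (j - 1) * (2 ^ j - 1) ^ 3 := by
  have h1 : 2 ^ (i - 1) < 2 ^ (j - 1) := Nat.pow_lt_pow_right (by norm_num) (by omega)
  have h2 : 2 ^ i < 2 ^ j := Nat.pow_lt_pow_right (by norm_num) hij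
  have h3 : (2 ^ i - 1) ^ 3 ≤ (2 ^ j - 1) ^ 3 := Nat.pow_le_pow_left (by omega) 3
  have h4 : 0 < (2 ^ j - 1) ^ 3 := by
    have : 1 ≤ 2 ^ i := Nat.one_le_two_pow
    have : 0 < 2 ^ j - 1 := by omega
    positivity
  exact Nat.mul_lt_mul_of_lt_of_le h1 h3 h4

theorem result :
    (∀ k m p : ℕ, p.Prime → 2 ≤ m →
      (TwoNearPerfect (2 ^ k * p ^ m) ↔
        (2 ^ k * p ^ m = 18 ∨ 2 ^ k * p ^ m = 36 ∨ 2 ^ k * p ^ m = 200) ∨
        (m = 3 ∧ p + 1 = 2 ^ (k + 1)))) ∧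
    A = {18, 36, 200} ∪ {n | ∃ j : ℕ, (2 ^ j - 1).Prime ∧ n = 2 ^ (j - 1) * (2 ^ j - 1) ^ 3} ∧
    (A.Finite ↔ {q : ℕ | q.Prime ∧ ∃ j : ℕ, q = 2 ^ j - 1}.Finite) := by
  refine ⟨classification, ?_, ?_⟩
  · rw [A_eq]
    congr 1
    ext n
    constructor
    · rintro ⟨j, hj, rfl⟩; exact ⟨j, hj, rfl⟩
    · rintro ⟨j, hj, rfl⟩; exact ⟨j, hj, rfl⟩
  · have hM : {q : ℕ | q.Prime ∧ ∃ j : ℕ, q = 2 ^ j - 1} =
        (fun j : ℕ => 2 ^ j - 1) '' {j : ℕ | (2 ^ j - 1).Prime} := by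
      ext q
      constructor
      · rintro ⟨hq, j, rfl⟩; exact ⟨j, hq, rfl⟩
      · rintro ⟨j, hj, rfl⟩; exact ⟨hj, j, rfl⟩
    have hinj1 : Set.InjOn (fun j : ℕ => 2 ^ j - 1) {j : ℕ | (2 ^ j - 1).Prime} := by
      intro i _ j _ hij
      have hij' : 2 ^ i - 1 = 2 ^ j - 1 := hij
      have h1 : 1 ≤ 2 ^ i := Nat.one_le_two_pow
      have h2 : 1 ≤ 2 ^ j := Nat.one_le_two_pow
      have h3 : 2 ^ i = 2 ^ j := by omega
      exact Nat.pow_right_injective le_rfl h3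
    have hinj2 : Set.InjOn (fun j : ℕ => 2 ^ (j - 1) * (2 ^ j - 1) ^ 3)
        {j : ℕ | (2 ^ j - 1).Prime} := by
      have hpos : ∀ j : ℕ, (2 ^ j - 1).Prime → 1 ≤ j := by
        intro j hj
        rcases j with _ | j
        · exfalso; norm_num at hj
        · omega
      intro i hi j hj hij
      rcases lt_trichotomy i j with h | h | h
      · exact absurd hij (f_mono (hpos i hi) h).ne
      · exact h
      · exact absurd hij (f_mono (hpos j hj) h).ne'
    rw [hM, Set.finite_image_iff hinj1, A_eq, Set.finite_union, Set.finite_image_iff hinj2]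
    constructor
    · exact fun h => h.2
    · exact fun h => ⟨by simp, h⟩

end Pool.Agent.Results.MP_d695ac_nt.MersenneClassification
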